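import Mathlib

/-!
# Parity of the valid hook configuration numbers

`F` is the exponential generating function of `(-1)^k Cat_k` (at `z^(2k+1)/(2k+1)!`). All the series
`F^m/m!` have integral EGF coefficients, so that `-log(1-F) = ∑ (m-1)! F^m/m!` is congruent to
`F + F^2/2!` modulo `2`. The first term gives the parity of the Catalan numbers, the second one is
even for `n ≥ 3`.
-/

set_option autoImplicit false

namespace Pool.Agent.Results.MP_773328_co.ParityVHC

open Finset Nat PowerSeries

/-- the power series `F(z) = ∑_k (-1)^k z^(2k+1) / (k! (k+1)! (2k+1))` -/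
noncomputable def F : ℚ⟦X⟧ :=
  PowerSeries.mk fun n => if Odd n then
    (-1) ^ ((n - 1) / 2) / ((((n - 1) / 2)! : ℚ) * (((n - 1) / 2 + 1)! : ℚ) * (n : ℚ)) else 0

/-- `-log(1-G) = ∑_{m ≥ 1} G^m / m` for a power series `G` without constant term (then `G^m` does not
contribute to the coefficient of `z^n` for `m > n`) -/
noncomputable def negLog (G : ℚ⟦X⟧) : ℚ⟦X⟧ :=
  PowerSeries.mk fun n => ∑ m ∈ Icc 1 n, coeff n (G ^ m) / (m : ℚ)

/-- the number `a_n`: `∑ a_n z^n/n! = -log(1-F(z))` -/
noncomputable def a (n : ℕ) : ℚ := (n ! : ℚ) * coeff n (negLog F)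

/-! ### parity of Catalan numbers -/

theorem sum_symm_even {R : Type*} [CommSemiring R] (k : ℕ) (t : ℕ → R) (ht : ∀ i ≤ 2 * k, t (2 * k - i) = t i) :
    ∑ i ∈ range (2 * k + 1), t i = 2 * ∑ i ∈ range k, t i + t k := by
  have h1 : ∑ i ∈ range (2 * k + 1), t i = ∑ i ∈ range k, t i + ∑ i ∈ range (k + 1), t (k + i) := by
    rw [show 2 * k + 1 = k + (k + 1) by ring, Finset.sum_range_add]
  rw [h1, Finset.sum_range_succ']
  have h2 : ∑ i ∈ range k, t (k + (i + 1)) = ∑ i ∈ range k, t i := by
    rw [← Finset.sum_range_reflect (fun i => t i) k]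
    refine Finset.sum_congr rfl (fun i hi => ?_)
    rw [mem_range] at hi
    rw [← ht (k + (i + 1)) (by omega)]
    congr 1
    omega
  rw [h2, add_zero]
  ring

theorem sum_symm_odd {R : Type*} [CommSemiring R] (k : ℕ) (t : ℕ → R) (ht : ∀ i ≤ 2 * k + 1, t (2 * k + 1 - i) = t i) :
    ∑ i ∈ range (2 * k + 2), t i = 2 * ∑ i ∈ range (k + 1), t i := by
  rw [show 2 * k + 2 = (k + 1) + (k + 1) by ring, Finset.sum_range_add, two_mul]
  congr 1
  rw [← Finset.sum_range_reflect (fun i => t i) (k + 1)]
  refine Finset.sum_congr rfl (fun i hi => ?_)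
  rw [mem_range] at hi
  rw [← ht (k + 1 + i) (by omega)]
  congr 1
  omega

theorem catalan_odd_iff (k : ℕ) : Odd (catalan k) ↔ ∃ j, k + 1 = 2 ^ j := by
  induction k using Nat.strong_induction_on with
  | _ k ih =>
    rcases Nat.eq_zero_or_pos k with rfl | hk
    · simp only [catalan_zero, odd_one, zero_add, true_iff]
      exact ⟨0, rfl⟩
    · obtain ⟨l, rfl⟩ : ∃ l, k = l + 1 := ⟨k - 1, by omega⟩
      rw [catalan_succ', Finset.Nat.sum_antidiagonal_eq_sum_range_succ
        (fun i j => catalan i * catalan j)]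
      rcases Nat.even_or_odd' l with ⟨m, rfl | rfl⟩
      · rw [sum_symm_even m _ (fun i hi => by
          rw [show 2 * m - (2 * m - i) = i by omega, mul_comm])]
        rw [add_comm, Nat.odd_add, iff_true_right (even_two_mul _), show 2 * m - m = m by omega]
        rw [Nat.odd_mul, and_self, ih m (by omega)]
        constructor
        · rintro ⟨j, hj⟩; exact ⟨j + 1, by rw [pow_succ]; omega⟩
        · rintro ⟨j, hj⟩
          cases j with
          | zero => simp at hj
          | succ j => exact ⟨j, by rw [pow_succ] at hj; omega⟩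
      · rw [sum_symm_odd m _ (fun i hi => by
          rw [show 2 * m + 1 - (2 * m + 1 - i) = i by omega, mul_comm])]
        constructor
        · intro h
          exact absurd h (Nat.not_odd_iff_even.2 (even_two_mul _))
        · rintro ⟨j, hj⟩
          cases j with
          | zero => simp at hj
          | succ j => rw [pow_succ] at hj; omega

theorem four_dvd (N : ℕ) (h1 : Odd N) (h3 : 3 ≤ N) : 4 ∣ (2 * N).choose N := by
  have h : (N + 1) * catalan N = (2 * N).choose N := by
    rw [succ_mul_catalan_eq_centralBinom, Nat.centralBinom_eq_two_mul_choose]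
  rw [← h]
  obtain ⟨m, rfl⟩ := h1
  by_cases hc : Odd (catalan (2 * m + 1))
  · rw [catalan_odd_iff] at hc
    obtain ⟨j, hj⟩ := hc
    have : 2 ≤ j := by
      by_contra hj2
      have : j = 0 ∨ j = 1 := by omega
      rcases this with rfl | rfl <;> (simp at hj; try omega)
    obtain ⟨i, rfl⟩ := Nat.exists_eq_add_of_le this
    rw [hj, pow_add]
    exact Dvd.dvd.mul_right (Dvd.dvd.mul_right (by norm_num) _) _
  · rw [Nat.not_odd_iff_even] at hc
    obtain ⟨c, hc⟩ := hc
    rw [hc, show 2 * m + 1 + 1 = 2 * (m + 1) by ring]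
    exact ⟨(m + 1) * c, by ring⟩

theorem choose_even {n i : ℕ} (hn : Even n) (hi : Odd i) : Even (n.choose i) := by
  obtain ⟨j, rfl⟩ := hi
  rcases n with _ | n
  · rw [Nat.choose_eq_zero_of_lt (by omega)]
    exact Even.zero
  · have h := Nat.add_one_mul_choose_eq n (2 * j)
    have h2 : Even ((n + 1).choose (2 * j + 1) * (2 * j + 1)) := by
      rw [← h]; exact hn.mul_right _
    rw [Nat.even_mul] at h2
    rcases h2 with h2 | h2
    · exact h2
    · exact absurd h2 (Nat.not_even_iff_odd.2 ⟨j, rfl⟩)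

/-! ### integrality of the divided powers -/

/-- the EGF coefficients of `F` -/
def f (n : ℕ) : ℤ := if Odd n then (-1) ^ ((n - 1) / 2) * (catalan ((n - 1) / 2) : ℤ) else 0

theorem coeff_F (n : ℕ) : (n ! : ℚ) * coeff n F = (f n : ℚ) := by
  unfold F f
  rw [coeff_mk]
  split_ifs with h
  · obtain ⟨k, rfl⟩ := h
    rw [show (2 * k + 1 - 1) / 2 = k by omega]
    have h1 : (k + 1) * catalan k = (2 * k).choose k := by
      rw [succ_mul_catalan_eq_centralBinom, Nat.centralBinom_eq_two_mul_choose]
    have h2 : (2 * k).choose k * k ! * k ! = (2 * k)! := by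
      have := Nat.choose_mul_factorial_mul_factorial (show k ≤ 2 * k by omega)
      rwa [show 2 * k - k = k by omega] at this
    have h3 : ((2 * k + 1)! : ℚ) = (2 * k + 1) * ((k + 1) * catalan k * k ! * k !) := by
      rw [Nat.factorial_succ, ← h2, ← h1]; push_cast; ring
    rw [h3, Nat.factorial_succ k]
    have h4 : (k ! : ℚ) ≠ 0 := by exact_mod_cast Nat.factorial_ne_zero k
    have h5 : (k : ℚ) + 1 ≠ 0 := by positivity
    have h6 : (2 * k : ℚ) + 1 ≠ 0 := by positivity
    push_cast
    field_simp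
  · simp

/-- the EGF coefficients of `F^m/m!` -/
def g : ℕ → ℕ → ℤ
  | 0, n => if n = 0 then 1 else 0
  | _ + 1, 0 => 0
  | m + 1, n + 1 => ∑ i ∈ range (n + 1), (n.choose i : ℤ) * g m i * f (n - i + 1)

theorem coeff_pow_F (m n : ℕ) : (n ! : ℚ) * coeff n (F ^ m) = (m ! : ℚ) * (g m n : ℚ) := by
  induction m generalizing n with
  | zero =>
    rw [pow_zero, coeff_one, g]
    split_ifs with h
    · subst h; simp
    · simp
  | succ m ih =>
    cases n with
    | zero =>
      have : coeff 0 F = 0 := by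
        unfold F
        rw [coeff_mk]; simp
      rw [coeff_zero_eq_constantCoeff_apply] at this
      rw [g, pow_succ, coeff_zero_eq_constantCoeff_apply, map_mul, this]
      simp
    | succ n =>
      rw [g]
      have h1 : coeff n (d⁄dX ℚ (F ^ (m + 1))) = coeff n (((m + 1 : ℕ) : ℚ⟦X⟧) * (F ^ m * d⁄dX ℚ F)) := by
        rw [Derivation.leibniz_pow]
        simp [mul_comm, mul_assoc]
      rw [coeff_derivative] at h1
      have h2 : coeff n (((m + 1 : ℕ) : ℚ⟦X⟧) * (F ^ m * d⁄dX ℚ F)) =
          ((m + 1 : ℕ) : ℚ) * coeff n (F ^ m * d⁄dX ℚ F) := by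
        rw [← nsmul_eq_mul, map_nsmul, nsmul_eq_mul]
      rw [h2, coeff_mul, Finset.Nat.sum_antidiagonal_eq_sum_range_succ
        (fun i j => coeff i (F ^ m) * coeff j (d⁄dX ℚ F))] at h1
      rw [Nat.factorial_succ n]
      have h3 : (((n + 1) * n ! : ℕ) : ℚ) * coeff (n + 1) (F ^ (m + 1)) =
          (n ! : ℚ) * (coeff (n + 1) (F ^ (m + 1)) * ((n : ℚ) + 1)) := by push_cast; ring
      rw [h3, h1, Nat.factorial_succ m]
      push_cast
      rw [mul_sum, mul_sum, mul_sum]
      refine Finset.sum_congr rfl (fun i hi => ?_)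
      rw [mem_range] at hi
      have hi' : i ≤ n := by omega
      rw [coeff_derivative]
      have e1 := ih i
      have e2 := coeff_F (n - i + 1)
      have e3 : (n.choose i : ℚ) * (i ! : ℚ) * ((n - i)! : ℚ) = n ! := by
        exact_mod_cast Nat.choose_mul_factorial_mul_factorial hi'
      rw [Nat.factorial_succ] at e2
      push_cast at e2
      rw [← e3]
      linear_combination ((m : ℚ) + 1) * (n.choose i : ℚ) * ((n - i)! : ℚ) *
        (coeff (n - i + 1) F * (((n - i : ℕ) : ℚ) + 1)) * e1 +
        ((m : ℚ) + 1) * (n.choose i : ℚ) * (m ! : ℚ) * (g m i : ℚ) * e2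

/-- `a_n` as an integer -/
def z (n : ℕ) : ℤ := ∑ m ∈ Icc 1 n, ((m - 1)! : ℤ) * g m n

theorem a_eq (n : ℕ) : a n = (z n : ℚ) := by
  unfold a z negLog
  rw [coeff_mk, mul_sum]
  push_cast
  refine Finset.sum_congr rfl (fun m hm => ?_)
  rw [mem_Icc] at hm
  obtain ⟨m, rfl⟩ : ∃ l, m = l + 1 := ⟨m - 1, by omega⟩
  have h := coeff_pow_F (m + 1) n
  rw [← mul_div_assoc, h, Nat.factorial_succ, Nat.add_sub_cancel]
  have : ((m + 1 : ℕ) : ℚ) ≠ 0 := by positivity
  push_cast at this ⊢
  field_simp

theorem g_one (n : ℕ) : g 1 n = f n := by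
  have h := coeff_pow_F 1 n
  rw [pow_one, coeff_F] at h
  simp at h
  exact_mod_cast h.symm

theorem g_two_even (n : ℕ) (hn : 3 ≤ n) : Even (g 2 n) := by
  have h := coeff_pow_F 2 n
  have h2 : (n ! : ℚ) * coeff n (F ^ 2) = ((∑ i ∈ range (n + 1), (n.choose i : ℤ) * f i * f (n - i) : ℤ) : ℚ) := by
    rw [sq, coeff_mul, Finset.Nat.sum_antidiagonal_eq_sum_range_succ
        (fun i j => coeff i F * coeff j F), mul_sum]
    push_cast
    refine Finset.sum_congr rfl (fun i hi => ?_)
    rw [mem_range] at hi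
    have e3 : (n.choose i : ℚ) * (i ! : ℚ) * ((n - i)! : ℚ) = n ! := by
      exact_mod_cast Nat.choose_mul_factorial_mul_factorial (show i ≤ n by omega)
    rw [← coeff_F, ← coeff_F, ← e3]
    ring
  rw [h2] at h
  have h3 : (∑ i ∈ range (n + 1), (n.choose i : ℤ) * f i * f (n - i) : ℤ) = 2 * g 2 n := by
    have : (2 ! : ℚ) = 2 := by norm_num
    rw [this] at h
    exact_mod_cast h
  suffices h4 : (4 : ℤ) ∣ 2 * g 2 n by
    obtain ⟨c, hc⟩ := h4
    exact ⟨c, by omega⟩
  rw [← h3]
  rcases Nat.even_or_odd' n with ⟨N, rfl | rfl⟩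
  · -- even `n`
    have e1 : ∑ i ∈ range (2 * N + 1), ((2 * N).choose i : ℤ) * f i * f (2 * N - i) =
        2 * ∑ i ∈ range N, ((2 * N).choose i : ℤ) * f i * f (2 * N - i) +
          ((2 * N).choose N : ℤ) * f N * f N := by
      rw [sum_symm_even N (fun i => ((2 * N).choose i : ℤ) * f i * f (2 * N - i))]
      · rw [show 2 * N - N = N by omega]
      · intro i hi
        rw [Nat.choose_symm hi, show 2 * N - (2 * N - i) = i by omega]
        ring
    rw [e1]
    apply dvd_add
    · have : (4 : ℤ) = 2 * 2 := by norm_num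
      rw [this]
      apply mul_dvd_mul_left
      apply Finset.dvd_sum
      intro i _
      by_cases hi : Odd i
      · have := choose_even (even_two_mul N) hi
        rw [mul_assoc]
        apply Dvd.dvd.mul_right
        exact_mod_cast this.two_dvd
      · have : f i = 0 := by simp [f, hi]
        simp [this]
    · by_cases hN : Odd N
      · have h5 : 3 ≤ N := by
          obtain ⟨l, rfl⟩ := hN
          omega
        rw [mul_assoc]
        apply Dvd.dvd.mul_right
        exact_mod_cast four_dvd N hN h5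
      · have : f N = 0 := by simp [f, hN]
        simp [this]
  · -- odd `n`
    have : ∑ i ∈ range (2 * N + 1 + 1), ((2 * N + 1).choose i : ℤ) * f i * f (2 * N + 1 - i) = 0 := by
      apply Finset.sum_eq_zero
      intro i hi
      rw [mem_range] at hi
      by_cases h1 : Odd i
      · have : ¬ Odd (2 * N + 1 - i) := by
          obtain ⟨l, rfl⟩ := h1
          rw [Nat.not_odd_iff_even]
          exact ⟨N - l, by omega⟩
        have : f (2 * N + 1 - i) = 0 := by simp only [f, if_neg this]
        rw [this, mul_zero]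
      · have : f i = 0 := by simp only [f, if_neg h1]
        rw [this]; ring
    rw [this]
    exact dvd_zero _

theorem z_parity (n : ℕ) (hn : 3 ≤ n) : Odd (z n) ↔ Odd (f n) := by
  have h1 : z n = f n + (g 2 n + ∑ m ∈ Icc 3 n, ((m - 1)! : ℤ) * g m n) := by
    unfold z
    rw [← g_one]
    have : Icc 1 n = insert 1 (insert 2 (Icc 3 n)) := by
      ext x; simp only [mem_Icc, mem_insert]; omega
    rw [this, Finset.sum_insert, Finset.sum_insert]
    · simp
    · simp
    · simp
  have h2 : Even (∑ m ∈ Icc 3 n, ((m - 1)! : ℤ) * g m n) := by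
    apply Finset.even_sum
    intro m hm
    rw [mem_Icc] at hm
    apply Even.mul_right
    have : 2 ∣ (m - 1)! := Nat.dvd_factorial (by norm_num) (by omega)
    exact_mod_cast (even_iff_two_dvd.2 this)
  rw [h1, Int.odd_add, iff_true_right ((g_two_even n hn).add h2)]

/-- For every `n ≥ 3`, the number `a_n` is an integer, and it is odd if and only if `n + 1` is a
power of `2`. -/
theorem result : ∀ n : ℕ, 3 ≤ n → ∃ b : ℤ, a n = (b : ℚ) ∧ (Odd b ↔ ∃ j : ℕ, n + 1 = 2 ^ j) := by
  intro n hn
  refine ⟨z n, a_eq n, ?_⟩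
  rw [z_parity n hn]
  unfold f
  split_ifs with h
  · obtain ⟨k, rfl⟩ := h
    rw [show (2 * k + 1 - 1) / 2 = k by omega, Int.odd_mul, Int.odd_coe_nat, catalan_odd_iff]
    have : Odd ((-1 : ℤ) ^ k) := by
      apply Odd.pow; decide
    rw [iff_true_intro this, true_and]
    constructor
    · rintro ⟨j, hj⟩; exact ⟨j + 1, by rw [pow_succ]; omega⟩
    · rintro ⟨j, hj⟩
      cases j with
      | zero => simp at hj
      | succ j => exact ⟨j, by rw [pow_succ] at hj; omega⟩
  · constructor
    · intro h'; exact absurd h' (by decide)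
    · rintro ⟨j, hj⟩
      rw [Nat.not_odd_iff_even] at h
      obtain ⟨c, rfl⟩ := h
      cases j with
      | zero => simp at hj; omega
      | succ j => rw [pow_succ] at hj; omega

end Pool.Agent.Results.MP_773328_co.ParityVHC
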